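import Pool.Agent.Lib_helper69.HM.N1
import Pool.Agent.Lib_helper69.HM.A5

open MeasureTheory Finset
open scoped ENNReal

namespace Pool.Agent.HM

theorem H3_wt {G : Type} [AddCommGroup G] [DecidableEq G] {ρ : ℝ → ℝ} (hρ : EdgeWeight ρ)
    (m : ℝ) (stp : Bool → G) (W : Finset G) (f : G → ℝ) :
    wt ρ m stp W f = ENNReal.ofReal ((∏ p ∈ edges stp W, ρ (f (p.1 + stp p.2) - f p.1)) *
      ∏ x ∈ W, Real.exp (-(m ^ 2 * f x ^ 2 / 2))) := by
  rw [wt, ENNReal.ofReal_mul (Finset.prod_nonneg fun p _ => hρ.nonneg _),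
    ENNReal.ofReal_prod_of_nonneg fun p _ => hρ.nonneg _,
    ENNReal.ofReal_prod_of_nonneg fun x _ => (Real.exp_pos _).le]

theorem H3_mono {G : Type} [AddCommGroup G] [DecidableEq G] {ρ : ℝ → ℝ} (hρ : EdgeWeight ρ)
    {m m' : ℝ} (h0 : 0 ≤ m) (h : m ≤ m') (stp : Bool → G) (W : Finset G) (f : G → ℝ) :
    wt ρ m' stp W f ≤ wt ρ m stp W f := by
  rw [H3_wt hρ, H3_wt hρ]
  apply ENNReal.ofReal_le_ofReal
  refine mul_le_mul_of_nonneg_left ?_ (Finset.prod_nonneg fun p _ => hρ.nonneg _)
  refine Finset.prod_le_prod (fun x _ => (Real.exp_pos _).le) fun x _ => ?_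
  apply Real.exp_le_exp.2
  have h1 : m ^ 2 ≤ m' ^ 2 := by nlinarith
  have h2 : 0 ≤ f x ^ 2 := sq_nonneg _
  nlinarith [mul_le_mul_of_nonneg_right h1 h2]

theorem H3_tendsto {G : Type} [AddCommGroup G] [DecidableEq G] {ρ : ℝ → ℝ} (hρ : EdgeWeight ρ)
    (stp : Bool → G) (W : Finset G) (f : G → ℝ) :
    Filter.Tendsto (fun j : ℕ => wt ρ (1 / ((j : ℝ) + 1)) stp W f) Filter.atTop
      (nhds (wt ρ 0 stp W f)) := by
  have h1 : Continuous fun m : ℝ => wt ρ m stp W f := by
    have : (fun m : ℝ => wt ρ m stp W f) = fun m =>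
        ENNReal.ofReal ((∏ p ∈ edges stp W, ρ (f (p.1 + stp p.2) - f p.1)) *
          ∏ x ∈ W, Real.exp (-(m ^ 2 * f x ^ 2 / 2))) := by
      funext m
      exact H3_wt hρ m stp W f
    rw [this]
    refine ENNReal.continuous_ofReal.comp (continuous_const.mul ?_)
    exact continuous_finsetProd _ fun x _ => by fun_prop
  exact (h1.tendsto 0).comp tendsto_one_div_add_atTop_nhds_zero_nat

/-- the mass tends to zero -/
theorem mass_to_zero {G : Type} [AddCommGroup G] [DecidableEq G] {ρ : ℝ → ℝ}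
    (hρ : EdgeWeight ρ) (stp : Bool → G) (W : Finset G) {S : Set (G → ℝ)}
    (hS : MeasurableSet S) (M : ℝ≥0∞)
    (h : ∀ m : ℝ, 0 < m → lm W (S.indicator (wt ρ m stp W)) 0 ≤ M * lm W (wt ρ m stp W) 0) :
    lm W (S.indicator (wt ρ 0 stp W)) 0 ≤ M * lm W (wt ρ 0 stp W) 0 := by
  have hpos : ∀ j : ℕ, 0 < 1 / ((j : ℝ) + 1) := fun j => by positivity
  have hup : Measurable (Function.updateFinset (0 : G → ℝ) W) := measurable_updateFinset
  have ht : Filter.Tendsto (fun j : ℕ => lm W (S.indicator (wt ρ (1 / ((j : ℝ) + 1)) stp W)) 0)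
      Filter.atTop (nhds (lm W (S.indicator (wt ρ 0 stp W)) 0)) := by
    refine lintegral_tendsto_of_tendsto_of_monotone (fun j => ?_) ?_ ?_
    · exact (((nice_wt hρ _ stp W).meas.indicator hS).comp hup).aemeasurable
    · refine Filter.Eventually.of_forall fun y => ?_
      intro i j hij
      refine Set.indicator_le_indicator ?_
      apply H3_mono hρ (hpos j).le
      apply one_div_le_one_div_of_le (by positivity)
      have : (i : ℝ) ≤ j := by exact_mod_cast hij
      linarith
    · refine Filter.Eventually.of_forall fun y => ?_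
      by_cases hy : Function.updateFinset (0 : G → ℝ) W y ∈ S
      · simp only [Set.indicator_of_mem hy]
        exact H3_tendsto hρ stp W _
      · simp only [Set.indicator_of_notMem hy]
        exact tendsto_const_nhds
  refine le_of_tendsto' ht fun j => (h _ (hpos j)).trans ?_
  refine mul_le_mul_right ?_ M
  exact lmarginal_mono (fun f => H3_mono hρ le_rfl (hpos j).le stp W f) 0

/-- symmetry of the tails -/
theorem lm_tail_symm {G : Type} [AddCommGroup G] [DecidableEq G] {ρ : ℝ → ℝ}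
    (hρ : EdgeWeight ρ) (m : ℝ) (stp : Bool → G) (W : Finset G) (x : G) (s : ℝ) :
    lm W (Set.indicator {f | f x < -s} (wt ρ m stp W)) 0 =
      lm W (Set.indicator {f | s < f x} (wt ρ m stp W)) 0 := by
  have hN := nice_wt hρ m stp W
  have hS : MeasurableSet {f : G → ℝ | s < f x} :=
    measurableSet_lt measurable_const (measurable_pi_apply x)
  have h1 := lm_neg (F := Set.indicator {f | s < f x} (wt ρ m stp W)) (hN.meas.indicator hS) W 0
  rw [neg_zero] at h1
  rw [← h1]
  congr 1
  funext f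
  by_cases hf : f x < -s
  · have hf' : -f ∈ {f : G → ℝ | s < f x} := by
      show s < -(f x)
      linarith
    rw [Set.indicator_of_mem (show f ∈ {f : G → ℝ | f x < -s} from hf),
      Set.indicator_of_mem hf', hN.even]
  · have hf' : -f ∉ {f : G → ℝ | s < f x} := by
      intro h2
      have h3 : s < -(f x) := h2
      exact hf (by linarith)
    rw [Set.indicator_of_notMem (show f ∉ {f : G → ℝ | f x < -s} from hf),
      Set.indicator_of_notMem hf']

end Pool.Agent.HM
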