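import Pool.Agent.Lib_helper69.HM.P1
import Pool.Agent.Lib_helper69.HM.A5

open MeasureTheory Finset
open scoped ENNReal

namespace Pool.Agent.HM

theorem P2_meas {G : Type} [AddCommGroup G] [DecidableEq G] {ρ : ℝ → ℝ} (hρ : EdgeWeight ρ)
    (m : ℝ) (stp : Bool → G) (W : Finset G) : Measurable (wt ρ m stp W) := by
  unfold wt
  refine Measurable.mul ?_ ?_
  · refine Finset.measurable_prod _ fun p _ => ?_
    have h1 : Measurable fun f : G → ℝ => f (p.1 + stp p.2) - f p.1 :=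
      Measurable.sub (measurable_pi_apply (p.1 + stp p.2)) (measurable_pi_apply p.1)
    exact (hρ.measurable.comp h1).ennreal_ofReal
  · refine Finset.measurable_prod _ fun x _ => ?_
    have h1 : Measurable fun f : G → ℝ => -(m ^ 2 * f x ^ 2 / 2) := by fun_prop
    exact (Real.measurable_exp.comp h1).ennreal_ofReal

theorem P2_box {n : ℕ} : box n ⊆ box (n + 1) := by
  intro x hx
  simp only [box, Finset.mem_product, Finset.mem_Icc] at hx ⊢
  push_cast
  omega

/-- partial integrals over the image of `Ω` in the torus -/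
theorem lm_proj {ρ : ℝ → ℝ} (hρ : EdgeWeight ρ) (m : ℝ) {N n : ℕ} (h : 2 * (n + 1) ≤ N)
    (k : Bool) {Ω : Finset (ℤ × ℤ)} (hΩ : Ω ⊆ box n) {F : (ℤ × ℤ → ℝ) → ℝ≥0∞}
    (hF : Measurable F) (hdep : ∀ f g : ℤ × ℤ → ℝ, (∀ x ∈ box (n + 1), f x = g x) → F f = F g)
    (ξ : Tor N → ℝ) :
    lm (Ω.image (proj N k)) (fun f => F (f ∘ proj N k) *
        wt ρ m (stpT N k) (Ω.image (proj N k)) f) ξ =
      lm Ω (fun f => F f * wt ρ m zstp Ω f) (ξ ∘ proj N k) := by
  have h1 := lm_transport (G := Tor N) (proj N k) Ω (box (n + 1)) (hΩ.trans P2_box)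
    (fun a ha b hb hab => proj_inj h k ha (P2_box (hΩ hb)) hab)
    (F := fun f => F f * wt ρ m zstp Ω f) (hF.mul (P2_meas hρ m zstp Ω)) (by
      intro f g hfg
      show F f * wt ρ m zstp Ω f = F g * wt ρ m zstp Ω g
      rw [hdep f g hfg, wt_congr ρ m zstp Ω (f := f) (g := g)
        (fun x hx => hfg x (P2_box (hΩ hx)))
        (fun p hp => ⟨hfg _ (box_nbr hΩ hp).1, hfg _ (box_nbr hΩ hp).2⟩)]) ξ
  rw [← h1]
  congr 1
  funext f
  rw [wt_proj ρ m h k hΩ f]

end Pool.Agent.HM
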